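import Pool.Agent.HB45.Win
import Pool.Agent.HB45.Exp
import Pool.Agent.HB45.Val

set_option autoImplicit false

/-!
# HM63/Bad: windows with comparable letters are rare

A window of a linear extension is bad if two of its letters are comparable. If `E (1 + u)^adj` is at
most `2`, then `E (1 + u / (B+1)!)^bad ≤ 2`, where `bad` counts the bad windows.
-/

namespace Pool.HM63

open Pool.HB45

/-- some two letters are comparable -/
def Bad {f : ℕ} (R : Rel f) : Prop := ∃ i j, R i j

theorem one_le_adj {B : ℕ} {R : Rel (B + 1)} (g : Equiv.Perm (Fin (B + 1))) (p : Fin B)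
    (h : R (g p.castSucc) (g p.succ)) : 1 ≤ adj R g := by
  classical
  refine Finset.card_pos.mpr ⟨p, ?_⟩
  unfold adjs
  simp [h]

/-- two comparable letters can be moved to neighbouring positions -/
theorem exists_adj {B : ℕ} {R : Rel (B + 1)} (d : ℕ) : ∀ g ∈ LE R, ∀ i j : Fin (B + 1),
    j.val = i.val + d → R (g i) (g j) → ∃ g' ∈ LE R, 1 ≤ adj R g' := by
  induction d with
  | zero =>
    intro g hg i j hij hR
    have h1 := mem_LE.1 hg i j hR
    have h2 : i = j := Fin.ext (by omega)
    rw [h2] at h1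
    exact absurd h1 (lt_irrefl _)
  | succ d ih =>
    intro g hg i j hij hR
    have hj := j.isLt
    let p : Fin B := ⟨i.val, by omega⟩
    have hpi : p.castSucc = i := Fin.ext rfl
    by_cases hp : R (g p.castSucc) (g p.succ)
    · exact ⟨g, hg, one_le_adj g p hp⟩
    · have hg' := swap_mem g hg p hp
      have hjs : j ≠ p.succ := by
        intro h
        rw [← h, hpi] at hp
        exact hp hR
      have hjv : j.val ≠ i.val + 1 := by
        intro h
        exact hjs (Fin.ext (by rw [h]; rfl))
      have hjc : j ≠ p.castSucc := by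
        intro h
        have : j.val = i.val := by rw [h]; rfl
        omega
      refine ih _ hg' p.succ j ?_ ?_
      · have : (p.succ : Fin (B + 1)).val = i.val + 1 := rfl
        omega
      · rw [Equiv.Perm.mul_apply, Equiv.Perm.mul_apply, Equiv.swap_apply_right,
          Equiv.swap_apply_of_ne_of_ne hjc hjs, hpi]
        exact hR

open Classical in
/-- the weight of a window -/
noncomputable def wt {f : ℕ} (c : ℝ) (R : Rel f) : ℝ := if Bad R then 1 + c else 1

theorem wt_nonneg {f : ℕ} {c : ℝ} (hc : 0 ≤ c) (R : Rel f) : 0 ≤ wt c R := by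
  unfold wt
  split_ifs <;> linarith

/-- one window -/
theorem window_le {B : ℕ} {R : Rel (B + 1)} (h1 : (1 : Equiv.Perm (Fin (B + 1))) ∈ LE R) {u : ℝ}
    (hu : 0 ≤ u) : wt (u / (B + 1).factorial) R ≤
      ((LE R).card : ℝ)⁻¹ * ∑ g ∈ LE R, (1 + u) ^ adj R g := by
  have hcard : (1 : ℝ) ≤ (LE R).card := by
    have : 1 ≤ (LE R).card := Finset.card_pos.2 ⟨1, h1⟩
    exact_mod_cast this
  have hfac : ((LE R).card : ℝ) ≤ (B + 1).factorial := by
    have h2 : (LE R).card ≤ (B + 1).factorial := by
      refine le_trans (Finset.card_le_univ _) ?_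
      rw [Fintype.card_perm, Fintype.card_fin]
    exact_mod_cast h2
  have hone : ∀ g : Equiv.Perm (Fin (B + 1)), (1 : ℝ) ≤ (1 + u) ^ adj R g := fun g =>
    one_le_pow₀ (by linarith)
  rw [← div_eq_inv_mul, le_div_iff₀ (by linarith)]
  have hsum : ∑ g ∈ LE R, (1 : ℝ) = (LE R).card := by simp
  unfold wt
  split_ifs with hb
  · obtain ⟨i, j, hij⟩ := hb
    have hlt := mem_LE.1 h1 i j hij
    have hlt' : i.val < j.val := hlt
    obtain ⟨g, hg, hadj⟩ := exists_adj (R := R) (j.val - i.val) 1 h1 i j (by omega) hij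
    have h2 : ∑ g' ∈ LE R, (1 + (if g' = g then u else 0)) ≤ ∑ g' ∈ LE R, (1 + u) ^ adj R g' := by
      refine Finset.sum_le_sum fun g' _ => ?_
      split_ifs with h
      · subst h
        calc 1 + u = (1 + u) ^ 1 := (pow_one _).symm
          _ ≤ (1 + u) ^ adj R g' := pow_le_pow_right₀ (by linarith) hadj
      · rw [add_zero]
        exact hone g'
    rw [Finset.sum_add_distrib, hsum, Finset.sum_ite_eq', if_pos hg] at h2
    refine le_trans ?_ h2
    have h3 : u / (B + 1).factorial * (LE R).card ≤ u := by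
      rw [div_mul_eq_mul_div, div_le_iff₀ (by positivity)]
      exact mul_le_mul_of_nonneg_left hfac hu
    linarith
  · rw [one_mul, ← hsum]
    exact Finset.sum_le_sum fun g' _ => hone g'

/-- number of comparable neighbours inside window `k` -/
noncomputable def aw {N B m : ℕ} (hm : m * (B + 2) ≤ N + 1) (Q : Rel (N + 1))
    (π : Equiv.Perm (Fin (N + 1))) (k : Fin m) : ℕ := adj (winRel (win_le hm k) Q π) 1

theorem aw_emb {N B m : ℕ} (hm : m * (B + 2) ≤ N + 1) (Q : Rel (N + 1))
    (π : Equiv.Perm (Fin (N + 1))) (k : Fin m) (g : Equiv.Perm (Fin (B + 1))) :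
    aw hm Q (π * emb (win_le hm k) g) k = adj (winRel (win_le hm k) Q π) g := by
  classical
  unfold aw adj adjs
  congr 1
  ext p
  simp only [Finset.mem_filter, Finset.mem_univ, true_and]
  rw [winRel_mul_emb]
  rfl

theorem winRel_other {N B m : ℕ} (hm : m * (B + 2) ≤ N + 1) (Q : Rel (N + 1))
    (π : Equiv.Perm (Fin (N + 1))) {k l : Fin m} (hkl : l ≠ k) (g : Equiv.Perm (Fin (B + 1))) :
    winRel (win_le hm l) Q (π * emb (win_le hm k) g) = winRel (win_le hm l) Q π :=
  winRel_mul_emb_of_disj (win_le hm l) (win_le hm k)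
    (win_disj B fun h => hkl (Fin.ext h)) π g

/-- all windows -/
theorem windows_le {N B m : ℕ} (hm : m * (B + 2) ≤ N + 1) (Q : Rel (N + 1)) {u : ℝ} (hu : 0 ≤ u) :
    ∑ π ∈ LE Q, ∏ k : Fin m, wt (u / (B + 1).factorial) (winRel (win_le hm k) Q π) ≤
      ∑ π ∈ LE Q, ∏ k : Fin m, (1 + u) ^ aw hm Q π k := by
  classical
  set c : ℝ := u / (B + 1).factorial with hc
  have hc0 : 0 ≤ c := by positivity
  have key : ∀ K : Finset (Fin m),
      ∑ π ∈ LE Q, (∏ k ∈ K, wt c (winRel (win_le hm k) Q π)) * ∏ k ∈ Kᶜ, (1 + u) ^ aw hm Q π k ≤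
      ∑ π ∈ LE Q, ∏ k : Fin m, (1 + u) ^ aw hm Q π k := by
    intro K
    induction K using Finset.induction_on with
    | empty => simp
    | insert k K hk ih =>
      refine le_trans ?_ ih
      rw [avg (win_le hm k) (fun π => (∏ k ∈ K, wt c (winRel (win_le hm k) Q π)) *
        ∏ k ∈ Kᶜ, (1 + u) ^ aw hm Q π k)]
      refine Finset.sum_le_sum fun π hπ => ?_
      have hKc : Kᶜ = insert k (insert k K)ᶜ := by
        ext l
        simp only [Finset.mem_compl, Finset.mem_insert]
        constructor
        · intro hl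
          by_cases h : l = k
          · exact Or.inl h
          · exact Or.inr fun h' => h'.elim h hl
        · rintro (rfl | h)
          · exact hk
          · exact fun h' => h (Or.inr h')
      have hkc : k ∉ (insert k K)ᶜ := by simp
      have hF : ∀ g ∈ LE (winRel (win_le hm k) Q π),
          (∏ l ∈ K, wt c (winRel (win_le hm l) Q (π * emb (win_le hm k) g))) *
            ∏ l ∈ Kᶜ, (1 + u) ^ aw hm Q (π * emb (win_le hm k) g) l =
          ((∏ l ∈ K, wt c (winRel (win_le hm l) Q π)) *
            ∏ l ∈ (insert k K)ᶜ, (1 + u) ^ aw hm Q π l) *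
            (1 + u) ^ adj (winRel (win_le hm k) Q π) g := by
        intro g _
        rw [hKc, Finset.prod_insert hkc, aw_emb]
        have e1 : ∏ l ∈ K, wt c (winRel (win_le hm l) Q (π * emb (win_le hm k) g)) =
            ∏ l ∈ K, wt c (winRel (win_le hm l) Q π) :=
          Finset.prod_congr rfl fun l hl => by
            have hlk : l ≠ k := by
              rintro rfl
              exact hk hl
            rw [winRel_other hm Q π hlk g]
        have e2 : ∏ l ∈ (insert k K)ᶜ, (1 + u) ^ aw hm Q (π * emb (win_le hm k) g) l =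
            ∏ l ∈ (insert k K)ᶜ, (1 + u) ^ aw hm Q π l :=
          Finset.prod_congr rfl fun l hl => by
            have hlk : l ≠ k := by
              rintro rfl
              exact hkc hl
            unfold aw
            rw [winRel_other hm Q π hlk g]
        rw [e1, e2]
        ring
      rw [Finset.sum_congr rfl hF, ← Finset.mul_sum, smul_eq_mul, Finset.prod_insert hk]
      have hw := window_le (one_mem_winRel (win_le hm k) π hπ) hu
      rw [← hc] at hw
      have hP : 0 ≤ (∏ l ∈ K, wt c (winRel (win_le hm l) Q π)) *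
            ∏ l ∈ (insert k K)ᶜ, (1 + u) ^ aw hm Q π l :=
        mul_nonneg (Finset.prod_nonneg fun l _ => wt_nonneg hc0 _)
          (Finset.prod_nonneg fun l _ => by positivity)
      calc wt c (winRel (win_le hm k) Q π) * (∏ l ∈ K, wt c (winRel (win_le hm l) Q π)) *
            ∏ l ∈ (insert k K)ᶜ, (1 + u) ^ aw hm Q π l
          = wt c (winRel (win_le hm k) Q π) * ((∏ l ∈ K, wt c (winRel (win_le hm l) Q π)) *
            ∏ l ∈ (insert k K)ᶜ, (1 + u) ^ aw hm Q π l) := by ring
        _ ≤ (((LE (winRel (win_le hm k) Q π)).card : ℝ)⁻¹ *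
              ∑ g ∈ LE (winRel (win_le hm k) Q π), (1 + u) ^ adj (winRel (win_le hm k) Q π) g) *
            ((∏ l ∈ K, wt c (winRel (win_le hm l) Q π)) *
            ∏ l ∈ (insert k K)ᶜ, (1 + u) ^ aw hm Q π l) := mul_le_mul_of_nonneg_right hw hP
        _ = _ := by ring
  have h := key Finset.univ
  rw [Finset.compl_univ] at h
  simpa using h

/-- comparable neighbours in windows are comparable neighbours -/
theorem sum_aw_le {N B m : ℕ} (hm : m * (B + 2) ≤ N + 1) (Q : Rel (N + 1))
    (π : Equiv.Perm (Fin (N + 1))) : ∑ k : Fin m, aw hm Q π k ≤ adj Q π := by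
  classical
  unfold aw adj
  rw [← Finset.card_sigma]
  have hlt : ∀ (k : Fin m) (i : Fin B), k.val * (B + 2) + i.val < N := fun k i => by
    have h1 := win_le hm k
    have h2 := i.isLt
    omega
  refine Finset.card_le_card_of_injOn (fun x => (⟨x.1.val * (B + 2) + x.2.val, hlt x.1 x.2⟩ : Fin N))
    ?_ ?_
  · rintro ⟨k, i⟩ hx
    rw [Finset.mem_coe, Finset.mem_sigma] at hx
    have h1 := hx.2
    unfold adjs at h1 ⊢
    simp only [Finset.mem_filter, Finset.mem_univ, true_and, Finset.mem_coe] at h1 ⊢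
    exact h1
  · rintro ⟨k, i⟩ _ ⟨l, j⟩ _ h
    have h1 : k.val * (B + 2) + i.val = l.val * (B + 2) + j.val := congrArg Fin.val h
    have hi := i.isLt
    have hj := j.isLt
    have hkl : k.val = l.val := by
      have h2 : (k.val * (B + 2) + i.val) / (B + 2) = k.val := by
        rw [Nat.mul_comm, Nat.mul_add_div (by omega), Nat.div_eq_of_lt (by omega), Nat.add_zero]
      have h3 : (l.val * (B + 2) + j.val) / (B + 2) = l.val := by
        rw [Nat.mul_comm, Nat.mul_add_div (by omega), Nat.div_eq_of_lt (by omega), Nat.add_zero]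
      rw [← h2, ← h3, h1]
    have hkl' : k = l := Fin.ext hkl
    subst hkl'
    have hij : i = j := Fin.ext (by omega)
    rw [hij]

/-- number of bad windows -/
noncomputable def nbad {N B m : ℕ} (hm : m * (B + 2) ≤ N + 1) (Q : Rel (N + 1))
    (π : Equiv.Perm (Fin (N + 1))) : ℕ := by
  classical
  exact (Finset.univ.filter fun k : Fin m => Bad (winRel (win_le hm k) Q π)).card

/-- EXPONENTIAL MOMENT of the number of bad windows -/
theorem exp_bad {N h B m : ℕ} (hh : 1 ≤ h) {Q : Rel (N + 1)} {κ : Fin (N + 1) → ℕ} (hκ : Lev h Q κ)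
    (hm : m * (B + 2) ≤ N + 1) :
    ∑ π ∈ LE Q, (1 + 1 / (4 * h * (B + 1).factorial) : ℝ) ^ nbad hm Q π ≤ 2 * (LE Q).card := by
  classical
  have hh0 : (0 : ℝ) < h := by exact_mod_cast hh
  have hu : (0 : ℝ) ≤ 1 / (4 * h) := by positivity
  have h1 := windows_le hm Q hu
  have h2 := exp_adj hκ (1 / (4 * h)) hu (by field_simp; norm_num)
  have h3 : (1 + 4 * h * (1 / (4 * h)) : ℝ) = 2 := by field_simp; norm_num
  rw [h3] at h2
  refine le_trans (le_of_eq ?_) (h1.trans (le_trans ?_ h2))
  · refine Finset.sum_congr rfl fun π _ => ?_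
    unfold nbad wt
    rw [Finset.prod_ite, Finset.prod_const_one, mul_one, Finset.prod_const]
    congr 2
    field_simp
  · refine Finset.sum_le_sum fun π _ => ?_
    rw [Finset.prod_pow_eq_pow_sum]
    exact pow_le_pow_right₀ (by linarith) (sum_aw_le hm Q π)

end Pool.HM63
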