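import Pool.Agent.HM63.Mid

set_option autoImplicit false

/-!
# HM63/Asm: positivity of an integral over `[-π, π]`
-/

namespace Pool.HM63

theorem far_bound {G : ℝ → ℝ} (hG : Continuous G) {e δ A B : ℝ} (he : 0 < e) (hδ : 0 < δ)
    (hδπ : δ ≤ Real.pi) (hA : 0 ≤ A) (hB : 0 ≤ B)
    (h3 : ∀ x, δ ≤ x → x ≤ Real.pi → -(e * (A * (|x| ^ 4)⁻¹ + B)) ≤ G x) :
    -(e * (A / (3 * δ ^ 3) + B * Real.pi)) ≤ ∫ x in δ..Real.pi, G x := by
  have hcont : ContinuousOn (fun x : ℝ => A * (|x| ^ 4)⁻¹ + B) (Set.uIcc δ Real.pi) := by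
    refine (ContinuousOn.mul continuousOn_const (ContinuousOn.inv₀ ?_ ?_)).add continuousOn_const
    · fun_prop
    · intro x hx
      rw [Set.uIcc_of_le hδπ] at hx
      have : 0 < x := lt_of_lt_of_le hδ hx.1
      positivity
  have h1 := integral_far hδ hδπ hA hB
  have h2 : ∫ x in δ..Real.pi, -(e * (A * (|x| ^ 4)⁻¹ + B)) ≤ ∫ x in δ..Real.pi, G x := by
    refine intervalIntegral.integral_mono_on hδπ ?_ (hG.intervalIntegrable _ _) ?_
    · exact ((hcont.const_smul e).neg).intervalIntegrable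
    · intro x hx
      exact h3 x hx.1 hx.2
  rw [intervalIntegral.integral_neg, intervalIntegral.integral_const_mul] at h2
  have h4 := mul_le_mul_of_nonneg_left h1 he.le
  linarith

theorem asm {G : ℝ → ℝ} (hG : Continuous G) {e s δ A B : ℝ} (he : 0 < e) (hs : 0 < s)
    (hηδ : 1 / s ≤ δ) (hδπ : δ ≤ Real.pi) (hA : 0 ≤ A) (hB : 0 ≤ B)
    (h1 : ∀ x, |x| ≤ 1 / s → 63 / 200 * e * x ^ 2 ≤ G x)
    (h2 : ∀ x, |x| ≤ δ → 0 ≤ G x)
    (h3 : ∀ x, δ ≤ |x| → |x| ≤ Real.pi → -(e * (A * (|x| ^ 4)⁻¹ + B)) ≤ G x)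
    (h4 : A / (3 * δ ^ 3) + B * Real.pi ≤ 1 / 100 / s ^ 3) :
    0 < ∫ x in (-Real.pi)..Real.pi, G x := by
  have hη : 0 < 1 / s := by positivity
  have hδ : 0 < δ := lt_of_lt_of_le hη hηδ
  have hint : ∀ a b, IntervalIntegrable G MeasureTheory.volume a b := fun a b =>
    hG.intervalIntegrable a b
  -- the five pieces
  have e5 : -(e * (A / (3 * δ ^ 3) + B * Real.pi)) ≤ ∫ x in δ..Real.pi, G x := by
    refine far_bound hG he hδ hδπ hA hB fun x hx1 hx2 => ?_
    have hx : |x| = x := abs_of_pos (lt_of_lt_of_le hδ hx1)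
    exact h3 x (by rw [hx]; exact hx1) (by rw [hx]; exact hx2)
  have e1 : -(e * (A / (3 * δ ^ 3) + B * Real.pi)) ≤ ∫ x in (-Real.pi)..(-δ), G x := by
    have h5 := intervalIntegral.integral_comp_neg (a := δ) (b := Real.pi) G
    rw [← h5]
    refine far_bound (G := fun x => G (-x)) (hG.comp continuous_neg) he hδ hδπ hA hB
      fun x hx1 hx2 => ?_
    have hx : |-x| = x := by
      rw [abs_neg]
      exact abs_of_pos (lt_of_lt_of_le hδ hx1)
    have := h3 (-x) (by rw [hx]; exact hx1) (by rw [hx]; exact hx2)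
    rw [abs_neg] at this
    exact this
  have e2 : 0 ≤ ∫ x in (-δ)..(-(1 / s)), G x := by
    refine intervalIntegral.integral_nonneg (by linarith) fun x hx => h2 x ?_
    rw [abs_le]
    exact ⟨hx.1, by linarith [hx.2]⟩
  have e4 : 0 ≤ ∫ x in (1 / s)..δ, G x := by
    refine intervalIntegral.integral_nonneg hηδ fun x hx => h2 x ?_
    rw [abs_le]
    exact ⟨by linarith [hx.1], hx.2⟩
  have e3 : 21 / 100 * e / s ^ 3 ≤ ∫ x in (-(1 / s))..(1 / s), G x := by
    have h5 : ∫ x in (-(1 / s))..(1 / s), 63 / 200 * e * x ^ 2 = 21 / 100 * e / s ^ 3 := by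
      rw [intervalIntegral.integral_const_mul, integral_pow]
      push_cast
      ring
    rw [← h5]
    refine intervalIntegral.integral_mono_on (by linarith) ?_ (hint _ _) ?_
    · apply Continuous.intervalIntegrable
      fun_prop
    · intro x hx
      exact h1 x (abs_le.mpr ⟨hx.1, hx.2⟩)
  rw [← intervalIntegral.integral_add_adjacent_intervals (hint (-Real.pi) (-δ)) (hint (-δ) Real.pi),
    ← intervalIntegral.integral_add_adjacent_intervals (hint (-δ) (-(1 / s)))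
      (hint (-(1 / s)) Real.pi),
    ← intervalIntegral.integral_add_adjacent_intervals (hint (-(1 / s)) (1 / s))
      (hint (1 / s) Real.pi),
    ← intervalIntegral.integral_add_adjacent_intervals (hint (1 / s) δ) (hint δ Real.pi)]
  have h6 : e * (A / (3 * δ ^ 3) + B * Real.pi) ≤ e * (1 / 100 / s ^ 3) :=
    mul_le_mul_of_nonneg_left h4 he.le
  have h7 : 0 < e / s ^ 3 := by positivity
  have h8 : 21 / 100 * e / s ^ 3 = 21 / 100 * (e / s ^ 3) := by ring
  have h9 : e * (1 / 100 / s ^ 3) = 1 / 100 * (e / s ^ 3) := by ring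
  rw [h8] at e3
  rw [h9] at h6
  linarith

end Pool.HM63
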