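import Pool.Agent.HM63.Bad
import Pool.Agent.HB45.DecG

set_option autoImplicit false

/-!
# HM63/DecM: decay of `W` on the unit circle, uniformly in the height
-/

open Polynomial

namespace Pool.HM63

open Pool.HB45

theorem norm_le_eval {G : ℝ[X]} (hpos : ∀ k, 0 ≤ G.coeff k) {t : ℂ} (ht : ‖t‖ = 1) :
    ‖aeval t G‖ ≤ G.eval 1 := by
  rw [aeval_eq_sum_range, eval_eq_sum_range]
  refine (norm_sum_le _ _).trans (Finset.sum_le_sum fun k _ => ?_)
  rw [norm_smul, norm_pow, ht, one_pow, Real.norm_of_nonneg (hpos k)]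

theorem norm_one_add_le (θ : ℝ) :
    ‖1 + Complex.exp (θ * Complex.I)‖ ≤ 2 - (1 - Real.cos θ) / 2 := by
  have hc1 := Real.cos_le_one θ
  have hc2 := Real.neg_one_le_cos θ
  have h1 : ‖1 + Complex.exp (θ * Complex.I)‖ ^ 2 = 4 - 2 * (1 - Real.cos θ) := by
    rw [Complex.sq_norm, Complex.normSq_apply]
    simp only [Complex.add_re, Complex.add_im, Complex.one_re, Complex.one_im,
      Complex.exp_ofReal_mul_I_re, Complex.exp_ofReal_mul_I_im]
    linear_combination Real.sin_sq_add_cos_sq θ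
  have h2 : 0 ≤ 2 - (1 - Real.cos θ) / 2 := by linarith
  rw [← pow_le_pow_iff_left₀ (norm_nonneg _) h2 two_ne_zero, h1]
  nlinarith [sq_nonneg (1 - Real.cos θ)]

/-- two neighbouring coefficients `≥ 1` -/
theorem norm_le_sub {G : ℝ[X]} (hpos : ∀ k, 0 ≤ G.coeff k) (v : ℕ) (hv : 1 ≤ G.coeff v)
    (hv' : 1 ≤ G.coeff (v + 1)) (θ : ℝ) :
    ‖aeval (Complex.exp (θ * Complex.I)) G‖ ≤ G.eval 1 - (1 - Real.cos θ) / 2 := by
  have ht : ‖Complex.exp (θ * Complex.I)‖ = 1 := Complex.norm_exp_ofReal_mul_I θ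
  set t := Complex.exp (θ * Complex.I) with htdef
  have hG : G = (G - (X ^ v + X ^ (v + 1))) + (X ^ v + X ^ (v + 1)) := by ring
  have hpos1 : ∀ k, 0 ≤ (G - (X ^ v + X ^ (v + 1))).coeff k := by
    intro k
    rw [coeff_sub, coeff_add, coeff_X_pow, coeff_X_pow]
    have := hpos k
    split_ifs with h1 h2 h2
    · omega
    · subst h1; linarith
    · subst h2; linarith
    · linarith
  have h1 := norm_le_eval hpos1 ht
  rw [eval_sub, eval_add, eval_pow, eval_pow, eval_X, one_pow, one_pow] at h1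
  have h2 : ‖aeval t ((X : ℝ[X]) ^ v + X ^ (v + 1))‖ ≤ 2 - (1 - Real.cos θ) / 2 := by
    have h3 : aeval t ((X : ℝ[X]) ^ v + X ^ (v + 1)) = t ^ v * (1 + t) := by
      rw [map_add, map_pow, map_pow, aeval_X]
      ring
    rw [h3, norm_mul, norm_pow, ht, one_pow, one_mul]
    exact norm_one_add_le θ
  rw [hG, map_add]
  refine (norm_add_le _ _).trans ?_
  rw [← hG]
  linarith

/-- one good window -/
theorem good_window {R : Rel (3 + 1)} {lab : Fin (3 + 1) → ℕ} (hn : Nat' R lab) (hb : ¬ Bad R)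
    (c d : ℕ) (θ : ℝ) :
    ‖aeval (Complex.exp (θ * Complex.I)) (Gp R lab c d)‖ ≤
      (LE R).card * Real.exp (-((1 - Real.cos θ) / 48)) := by
  have hκ : Lev 1 R (fun _ => 0) := ⟨fun _ => Nat.zero_lt_one, fun a b hab => absurd ⟨a, b, hab⟩ hb⟩
  obtain ⟨hpos, _, hev, hfac, hone, v, _, hv, hv'⟩ := Gp_facts hκ hn (by norm_num) c d
  have h1 := norm_le_sub hpos v hv hv' θ
  rw [hev] at h1
  have hfac' : ((LE R).card : ℝ) ≤ 24 := by
    have h4 : (3 + 1).factorial = 24 := rfl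
    rw [h4] at hfac
    exact_mod_cast hfac
  have hc1 := Real.cos_le_one θ
  have h2 : 1 - (1 - Real.cos θ) / 48 ≤ Real.exp (-((1 - Real.cos θ) / 48)) := by
    have := Real.add_one_le_exp (-((1 - Real.cos θ) / 48))
    linarith
  have h3 : ((LE R).card : ℝ) * (1 - (1 - Real.cos θ) / 48) ≤
      (LE R).card * Real.exp (-((1 - Real.cos θ) / 48)) :=
    mul_le_mul_of_nonneg_left h2 (by linarith)
  refine h1.trans (le_trans ?_ h3)
  nlinarith

theorem any_window {B : ℕ} {R : Rel (B + 1)} {lab : Fin (B + 1) → ℕ} (c d : ℕ) (θ : ℝ) :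
    ‖aeval (Complex.exp (θ * Complex.I)) (Gp R lab c d)‖ ≤ (LE R).card := by
  have ht : ‖Complex.exp (θ * Complex.I)‖ = 1 := Complex.norm_exp_ofReal_mul_I θ
  have h1 := norm_le_eval (coeff_Gp_nonneg R lab c d) ht
  refine h1.trans (le_of_eq ?_)
  unfold Gp
  rw [eval_finsetSum, Finset.sum_congr rfl fun g _ => by rw [eval_pow, eval_X, one_pow],
    Finset.sum_const, nsmul_eq_mul, mul_one]

theorem aux_pow {q c : ℝ} (hq : 0 ≤ q) (hq1 : q ≤ 1) (hc : 0 ≤ c) {m b g : ℕ} (h : b + g = 2 * m) :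
    q ^ g ≤ q ^ m + (1 + c) ^ b / (1 + c) ^ m := by
  have hpos : 0 < (1 + c) ^ m := by positivity
  rcases le_or_gt b m with hb | hb
  · have h1 : q ^ g ≤ q ^ m := pow_le_pow_of_le_one hq hq1 (by omega)
    have h2 : 0 ≤ (1 + c) ^ b / (1 + c) ^ m := by positivity
    linarith
  · have h1 : q ^ g ≤ 1 := pow_le_one₀ hq hq1
    have h2 : 1 ≤ (1 + c) ^ b / (1 + c) ^ m := by
      rw [le_div_iff₀ hpos, one_mul]
      exact pow_le_pow_right₀ (by linarith) hb.le
    have h3 : 0 ≤ q ^ m := pow_nonneg hq m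
    linarith

/-- DECAY on the unit circle -/
theorem decay_mid {N h m : ℕ} (hh : 1 ≤ h) {Q : Rel (N + 1)} {κ lab : Fin (N + 1) → ℕ}
    (hκ : Lev h Q κ) (hn : Nat' Q lab) (hm : 10 * m ≤ N + 1) (θ : ℝ) :
    ‖Wc Q lab (Complex.exp (θ * Complex.I))‖ ≤ (LE Q).card *
      (Real.exp (-((1 - Real.cos θ) / 48)) ^ m + 2 / (1 + 1 / (96 * h)) ^ m) := by
  classical
  have hm' : (2 * m) * (3 + 2) ≤ N + 1 := by omega
  set q := Real.exp (-((1 - Real.cos θ) / 48)) with hq
  have hc1 := Real.cos_le_one θ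
  have hq0 : 0 ≤ q := (Real.exp_pos _).le
  have hq1 : q ≤ 1 := Real.exp_le_one_iff.mpr (by linarith)
  set t := Complex.exp (θ * Complex.I) with ht
  have htn : ‖t‖ = 1 := Complex.norm_exp_ofReal_mul_I θ
  have hW : Wc Q lab t = aeval t (Wp Q lab) := by
    unfold Wc Wp
    rw [map_sum]
    exact Finset.sum_congr rfl fun g _ => by rw [map_pow, aeval_X]
  rw [hW, win_decomp hm' Q lab, map_sum]
  have hstep : ∀ π ∈ LE Q, ‖aeval t (C ((∏ k : Fin (2 * m),
      ((LE (winRel (win_le hm' k) Q π)).card : ℝ))⁻¹) * X ^ rest lab 3 (2 * m) π *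
        ∏ k : Fin (2 * m), GW hm' Q lab π k)‖ ≤
      q ^ m + (1 + 1 / (96 * h)) ^ nbad hm' Q π / (1 + 1 / (96 * h)) ^ m := by
    intro π hπ
    have hcard : ∀ k : Fin (2 * m), (0 : ℝ) < (LE (winRel (win_le hm' k) Q π)).card := by
      intro k
      have : 0 < (LE (winRel (win_le hm' k) Q π)).card :=
        Finset.card_pos.2 ⟨1, one_mem_winRel (win_le hm' k) π hπ⟩
      exact_mod_cast this
    have hprod : 0 < ∏ k : Fin (2 * m), ((LE (winRel (win_le hm' k) Q π)).card : ℝ) :=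
      Finset.prod_pos fun k _ => hcard k
    rw [map_mul, map_mul, map_pow, aeval_X, aeval_C, map_prod, norm_mul, norm_mul, norm_pow, htn,
      one_pow, mul_one, norm_prod]
    have h1 : ‖(algebraMap ℝ ℂ) (∏ k : Fin (2 * m),
        ((LE (winRel (win_le hm' k) Q π)).card : ℝ))⁻¹‖ =
        (∏ k : Fin (2 * m), ((LE (winRel (win_le hm' k) Q π)).card : ℝ))⁻¹ := by
      rw [Complex.coe_algebraMap, Complex.norm_real, Real.norm_of_nonneg (inv_nonneg.mpr hprod.le)]
    rw [h1]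
    have h2 : ∏ k : Fin (2 * m), ‖aeval t (GW hm' Q lab π k)‖ ≤
        ∏ k : Fin (2 * m), (((LE (winRel (win_le hm' k) Q π)).card : ℝ) *
          if Bad (winRel (win_le hm' k) Q π) then 1 else q) := by
      refine Finset.prod_le_prod (fun k _ => norm_nonneg _) fun k _ => ?_
      split_ifs with hb
      · rw [mul_one]
        exact any_window _ _ θ
      · exact good_window (nat_win hn (win_le hm' k) π) hb _ _ θ
    rw [Finset.prod_mul_distrib] at h2
    have h3 : ∏ k : Fin (2 * m), (if Bad (winRel (win_le hm' k) Q π) then (1 : ℝ) else q) =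
        q ^ (Finset.univ.filter fun k : Fin (2 * m) => ¬ Bad (winRel (win_le hm' k) Q π)).card := by
      rw [Finset.prod_ite, Finset.prod_const_one, one_mul, Finset.prod_const]
    rw [h3] at h2
    have h4 : nbad hm' Q π +
        (Finset.univ.filter fun k : Fin (2 * m) => ¬ Bad (winRel (win_le hm' k) Q π)).card =
        2 * m := by
      have := Finset.card_filter_add_card_filter_not (s := (Finset.univ : Finset (Fin (2 * m))))
        (fun k => Bad (winRel (win_le hm' k) Q π))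
      rw [Finset.card_univ, Fintype.card_fin] at this
      unfold nbad
      convert this
    have h5 := aux_pow hq0 hq1 (c := 1 / (96 * h)) (by positivity) h4
    refine le_trans ?_ h5
    rw [inv_mul_le_iff₀ hprod]
    exact h2
  refine (norm_sum_le _ _).trans ((Finset.sum_le_sum hstep).trans ?_)
  rw [Finset.sum_add_distrib, Finset.sum_const, nsmul_eq_mul, ← Finset.sum_div]
  have h6 := exp_bad hh hκ hm'
  have h7 : (1 + 1 / (4 * h * (3 + 1).factorial) : ℝ) = 1 + 1 / (96 * h) := by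
    have h8 : (3 + 1).factorial = 24 := rfl
    rw [h8]
    congr 2
    push_cast
    ring
  rw [h7] at h6
  have hpos : (0 : ℝ) < (1 + 1 / (96 * h)) ^ m := by positivity
  have h8 : (∑ π ∈ LE Q, (1 + 1 / (96 * h) : ℝ) ^ nbad hm' Q π) / (1 + 1 / (96 * h)) ^ m ≤
      2 * (LE Q).card / (1 + 1 / (96 * h)) ^ m := div_le_div_of_nonneg_right h6 hpos.le
  calc _ ≤ ((LE Q).card : ℝ) * q ^ m + 2 * (LE Q).card / (1 + 1 / (96 * h)) ^ m := by
        linarith
    _ = _ := by ring

end Pool.HM63
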