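import Pool.Agent.HM63.Sg
import Pool.Agent.HM63.DecM
import Pool.Agent.HB45.CentA

set_option autoImplicit false

/-!
# HM63/Mid: strict concavity in the middle, uniformly in the height

If `10^14 h² ≤ N` then `w_(k-1) + w_(k+1) < 2 w_k` for `|k - N/2| ≤ h + 1`.
-/

open Polynomial

namespace Pool.HM63

open Pool.HB45

/-- `e^(-z) ≤ 6 / z³` -/
theorem exp_neg_le {z : ℝ} (hz : 0 < z) : Real.exp (-z) ≤ 6 / z ^ 3 := by
  have h1 : z ^ 3 / 6 ≤ Real.exp z := by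
    have := Real.pow_div_factorial_le_exp z hz.le 3
    norm_num [Nat.factorial] at this
    exact this
  rw [Real.exp_neg, ← one_div, div_le_div_iff₀ (Real.exp_pos z) (by positivity)]
  linarith

theorem two_sub_cos_le (θ : ℝ) : 2 - 2 * Real.cos θ ≤ θ ^ 2 := by
  have := Real.one_sub_sq_div_two_le_cos (x := θ)
  linarith

theorem two_sub_cos_ge {θ : ℝ} (hθ : |θ| ≤ Real.pi) : 2 / 5 * θ ^ 2 ≤ 2 - 2 * Real.cos θ := by
  have h1 := Real.cos_le_one_sub_mul_cos_sq hθ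
  have h2 : Real.pi ^ 2 ≤ 10 := by
    have := Real.pi_lt_d2
    have := Real.pi_pos
    nlinarith
  have h3 : 1 / 5 * θ ^ 2 ≤ 2 / Real.pi ^ 2 * θ ^ 2 := by
    refine mul_le_mul_of_nonneg_right ?_ (sq_nonneg θ)
    rw [div_le_div_iff₀ (by norm_num) (by positivity)]
    linarith
  linarith

/-- THE FAR PART, pointwise -/
theorem far_mid {N h p : ℕ} (hh : 1 ≤ h) (hp : 1 ≤ p) {Q : Rel (N + 1)} {κ lab : Fin (N + 1) → ℕ}
    (hκ : Lev h Q κ) (hn : Nat' Q lab) (hpN : 30 * p ≤ N + 1) {θ : ℝ} (h0 : 0 < |θ|)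
    (hθ : |θ| ≤ Real.pi) :
    ‖Wc Q lab (Complex.exp (θ * Complex.I))‖ * (2 - 2 * Real.cos θ) ≤ (LE Q).card *
      (6 * (80 / p) ^ 3 * (|θ| ^ 4)⁻¹ + 8 * (96 * h / p) ^ 3) := by
  have hh1 : (1 : ℝ) ≤ h := by exact_mod_cast hh
  have hp1 : (1 : ℝ) ≤ p := by exact_mod_cast hp
  have hd := decay_mid (m := 3 * p) hh hκ hn (by omega) θ
  have hx0 : 0 ≤ 2 - 2 * Real.cos θ := by linarith [Real.cos_le_one θ]
  have hx1 := two_sub_cos_le θ
  have hx2 := two_sub_cos_ge hθ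
  have hx3 : 2 - 2 * Real.cos θ ≤ 4 := by linarith [Real.neg_one_le_cos θ]
  have hc0 : (0 : ℝ) ≤ (LE Q).card := Nat.cast_nonneg _
  have hsq : |θ| ^ 2 = θ ^ 2 := sq_abs θ
  have hθ2 : 0 < θ ^ 2 := by rw [← hsq]; positivity
  -- first factor
  have h1 : Real.exp (-((1 - Real.cos θ) / 48)) ^ (3 * p) ≤ 6 * (80 / p) ^ 3 / (θ ^ 2) ^ 3 := by
    rw [← Real.exp_nat_mul]
    have h2 : ((3 * p : ℕ) : ℝ) * -((1 - Real.cos θ) / 48) ≤ -(θ ^ 2 * p / 80) := by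
      push_cast
      nlinarith
    refine (Real.exp_le_exp.mpr h2).trans ((exp_neg_le (by positivity)).trans (le_of_eq ?_))
    field_simp
  have h2 : (2 - 2 * Real.cos θ) * Real.exp (-((1 - Real.cos θ) / 48)) ^ (3 * p) ≤
      6 * (80 / p) ^ 3 * (|θ| ^ 4)⁻¹ := by
    have h3 : 0 ≤ 6 * (80 / (p : ℝ)) ^ 3 / (θ ^ 2) ^ 3 := by positivity
    calc (2 - 2 * Real.cos θ) * Real.exp (-((1 - Real.cos θ) / 48)) ^ (3 * p)
        ≤ θ ^ 2 * (6 * (80 / p) ^ 3 / (θ ^ 2) ^ 3) :=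
          mul_le_mul hx1 h1 (by positivity) hθ2.le
      _ = 6 * (80 / p) ^ 3 * (|θ| ^ 4)⁻¹ := by
          have h4 : |θ| ^ 4 = (θ ^ 2) ^ 2 := by
            rw [← hsq]
            ring
          rw [h4]
          field_simp
  -- second factor
  have h3 : (2 - 2 * Real.cos θ) * (2 / (1 + 1 / (96 * h)) ^ (3 * p)) ≤ 8 * (96 * h / p) ^ 3 := by
    have h4 : (p / (96 * h) : ℝ) ≤ (1 + 1 / (96 * h)) ^ p := by
      have h5 := one_add_mul_le_pow (a := (1 / (96 * h) : ℝ))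
        (by have : (0 : ℝ) ≤ 1 / (96 * h) := by positivity
            linarith) p
      have h6 : (p : ℝ) * (1 / (96 * h)) = p / (96 * h) := by ring
      linarith
    have h5 : (p / (96 * h) : ℝ) ^ 3 ≤ (1 + 1 / (96 * h)) ^ (3 * p) := by
      rw [mul_comm 3 p, pow_mul]
      exact pow_le_pow_left₀ (by positivity) h4 3
    have h6 : (2 / (1 + 1 / (96 * h)) ^ (3 * p) : ℝ) ≤ 2 / (p / (96 * h)) ^ 3 :=
      div_le_div_of_nonneg_left (by norm_num) (by positivity) h5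
    calc (2 - 2 * Real.cos θ) * (2 / (1 + 1 / (96 * h)) ^ (3 * p))
        ≤ 4 * (2 / (p / (96 * h)) ^ 3) := mul_le_mul hx3 h6 (by positivity) (by norm_num)
      _ = 8 * (96 * h / p) ^ 3 := by
          field_simp
          ring
  calc ‖Wc Q lab (Complex.exp (θ * Complex.I))‖ * (2 - 2 * Real.cos θ)
      ≤ ((LE Q).card * (Real.exp (-((1 - Real.cos θ) / 48)) ^ (3 * p) +
          2 / (1 + 1 / (96 * h)) ^ (3 * p))) * (2 - 2 * Real.cos θ) :=
        mul_le_mul_of_nonneg_right hd hx0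
    _ = (LE Q).card * ((2 - 2 * Real.cos θ) * Real.exp (-((1 - Real.cos θ) / 48)) ^ (3 * p) +
          (2 - 2 * Real.cos θ) * (2 / (1 + 1 / (96 * h)) ^ (3 * p))) := by ring
    _ ≤ _ := mul_le_mul_of_nonneg_left (add_le_add h2 h3) hc0

/-- integral of the far bound -/
theorem integral_far {a b A B : ℝ} (ha : 0 < a) (hab : a ≤ b) (hA : 0 ≤ A) (hB : 0 ≤ B) :
    ∫ x in a..b, (A * (|x| ^ 4)⁻¹ + B) ≤ A / (3 * a ^ 3) + B * b := by
  have h0 : (0 : ℝ) ∉ Set.uIcc a b := by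
    rw [Set.uIcc_of_le hab]
    intro h
    linarith [h.1]
  have h1 : ∫ x in a..b, (A * (|x| ^ 4)⁻¹ + B) = ∫ x in a..b, (A * x ^ (-4 : ℤ) + B) := by
    refine intervalIntegral.integral_congr fun x hx => ?_
    rw [Set.uIcc_of_le hab] at hx
    have hx0 : 0 < x := lt_of_lt_of_le ha hx.1
    change A * (|x| ^ 4)⁻¹ + B = A * x ^ (-4 : ℤ) + B
    rw [abs_of_pos hx0, zpow_neg]
    rfl
  have hii : IntervalIntegrable (fun x : ℝ => x ^ (-4 : ℤ)) MeasureTheory.volume a b :=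
    intervalIntegral.intervalIntegrable_zpow (Or.inr h0)
  rw [h1, intervalIntegral.integral_add (hii.const_mul A) (by simp),
    intervalIntegral.integral_const_mul, intervalIntegral.integral_const,
    integral_zpow (Or.inr ⟨by norm_num, h0⟩)]
  have hb : 0 < b := lt_of_lt_of_le ha hab
  have e1 : ((-4 : ℤ) + 1 : ℤ) = -3 := by norm_num
  have e2 : (b ^ ((-4 : ℤ) + 1) - a ^ ((-4 : ℤ) + 1)) / (((-4 : ℤ) : ℝ) + 1) =
      (1 / a ^ 3 - 1 / b ^ 3) / 3 := by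
    rw [e1, zpow_neg, zpow_neg]
    have e3 : a ^ (3 : ℤ) = a ^ 3 := rfl
    have e4 : b ^ (3 : ℤ) = b ^ 3 := rfl
    rw [e3, e4]
    push_cast
    ring
  rw [e2, smul_eq_mul]
  have h2 : A * ((1 / a ^ 3 - 1 / b ^ 3) / 3) ≤ A / (3 * a ^ 3) := by
    have h3 : (1 / a ^ 3 - 1 / b ^ 3) / 3 ≤ 1 / (3 * a ^ 3) := by
      have h4 : 0 < 1 / b ^ 3 := by positivity
      have h5 : 1 / (3 * a ^ 3) = 1 / a ^ 3 / 3 := by
        field_simp
      rw [h5]
      linarith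
    calc A * ((1 / a ^ 3 - 1 / b ^ 3) / 3) ≤ A * (1 / (3 * a ^ 3)) :=
          mul_le_mul_of_nonneg_left h3 hA
      _ = A / (3 * a ^ 3) := by ring
  have h3 : (b - a) * B ≤ B * b := by nlinarith
  linarith

end Pool.HM63
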