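import Pool.Agent.HM63.Asm

set_option autoImplicit false

/-!
# HM63/MidC: strict concavity in the middle, uniformly in the height
-/

open Polynomial

namespace Pool.HM63

open Pool.HB45

/-- the numbers -/
theorem numbers {s h p : ℝ} (hs : 0 < s) (hh : 0 ≤ h) (hhs : 10 ^ 7 * h ≤ s)
    (hp : s ^ 2 ≤ 31 * p) :
    6 * (80 / p) ^ 3 / (3 * (25000 / s) ^ 3) + 8 * (96 * h / p) ^ 3 * Real.pi ≤
      1 / 100 / s ^ 3 := by
  have hs2 : 0 < s ^ 2 := by positivity
  have hp0 : 0 < p := by linarith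
  have h1 : 80 / p ≤ 2480 / s ^ 2 := by
    rw [div_le_div_iff₀ hp0 hs2]
    linarith
  have h2 : 96 * h / p ≤ 3 / 10000 / s := by
    rw [div_le_div_iff₀ hp0 hs]
    have h3 : 96 * h * s ≤ 96 * (s / 10 ^ 7) * s := by
      refine mul_le_mul_of_nonneg_right ?_ hs.le
      have : h ≤ s / 10 ^ 7 := by
        rw [le_div_iff₀ (by norm_num)]
        linarith
      linarith
    have h4 : 96 * (s / 10 ^ 7) * s = 96 / 10 ^ 7 * s ^ 2 := by ring
    rw [h4] at h3
    norm_num at h3 ⊢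
    linarith
  have h3 : (80 / p) ^ 3 ≤ (2480 / s ^ 2) ^ 3 := pow_le_pow_left₀ (by positivity) h1 3
  have h4 : (96 * h / p) ^ 3 ≤ (3 / 10000 / s) ^ 3 := pow_le_pow_left₀ (by positivity) h2 3
  have h5 : 6 * (80 / p) ^ 3 / (3 * (25000 / s) ^ 3) ≤
      6 * (2480 / s ^ 2) ^ 3 / (3 * (25000 / s) ^ 3) := by
    refine div_le_div_of_nonneg_right ?_ (by positivity)
    linarith
  have h6 : 6 * (2480 / s ^ 2) ^ 3 / (3 * (25000 / s) ^ 3) = 2 * (2480 / 25000) ^ 3 / s ^ 3 := by
    field_simp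
    norm_num
  have hpi : Real.pi ≤ 4 := Real.pi_le_four
  have h7 : 8 * (96 * h / p) ^ 3 * Real.pi ≤ 8 * (3 / 10000 / s) ^ 3 * 4 :=
    mul_le_mul (by linarith) hpi Real.pi_pos.le (by positivity)
  have h8 : 8 * (3 / 10000 / s) ^ 3 * 4 = 32 * (3 / 10000) ^ 3 / s ^ 3 := by
    field_simp
    norm_num
  rw [h6] at h5
  rw [h8] at h7
  have h9 : (2 * (2480 / 25000) ^ 3 / s ^ 3 + 32 * (3 / 10000) ^ 3 / s ^ 3 : ℝ) ≤
      1 / 100 / s ^ 3 := by
    rw [← add_div]
    refine div_le_div_of_nonneg_right ?_ (by positivity)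
    norm_num
  linarith

/-- If `10^14 h² ≤ N` then `w_(k-1) + w_(k+1) < 2 w_k` for `10^14 (2 k - N)² ≤ N`. -/
theorem mid_concave {N h : ℕ} (hh : 1 ≤ h) (hN : 10 ^ 14 * h ^ 2 ≤ N) {Q : Rel (N + 1)}
    {κ lab : Fin (N + 1) → ℕ} (hκ : Lev h Q κ) (hn : Nat' Q lab) {k : ℕ} (hk1 : 1 ≤ k)
    (hk : 10 ^ 14 * (2 * (k : ℤ) - N) ^ 2 ≤ N) :
    (Wp Q lab).coeff (k - 1) + (Wp Q lab).coeff (k + 1) < 2 * (Wp Q lab).coeff k := by
  have hh1 : (1 : ℝ) ≤ h := by exact_mod_cast hh
  have hNr : (10 : ℝ) ^ 14 * h ^ 2 ≤ N := by exact_mod_cast hN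
  have hkr : (10 : ℝ) ^ 14 * (2 * (k : ℝ) - N) ^ 2 ≤ N := by exact_mod_cast hk
  have hNbig : 10 ^ 14 ≤ N := by nlinarith
  set s : ℝ := Real.sqrt (N + 2) with hs
  have hs2 : s ^ 2 = N + 2 := Real.sq_sqrt (by positivity)
  have hspos : 0 < s := Real.sqrt_pos.mpr (by positivity)
  have hhs : 10 ^ 7 * (h : ℝ) ≤ s := by
    rw [← pow_le_pow_iff_left₀ (by positivity) hspos.le two_ne_zero, hs2]
    nlinarith
  have hks : 10 ^ 7 * |2 * (k : ℝ) - N| ≤ s := by
    rw [← pow_le_pow_iff_left₀ (by positivity) hspos.le two_ne_zero, hs2, mul_pow, sq_abs]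
    norm_num
    norm_num at hkr
    linarith
  have hs7 : (10 : ℝ) ^ 7 ≤ s := by linarith
  set p : ℕ := (N + 1) / 30 with hp
  have hp30 : 30 * p ≤ N + 1 := Nat.mul_div_le _ _
  have hp1 : 1 ≤ p := by omega
  have hp31 : N + 2 ≤ 31 * p := by omega
  have hp31' : s ^ 2 ≤ 31 * (p : ℝ) := by
    rw [hs2]
    exact_mod_cast hp31
  set e : ℝ := ((LE Q).card : ℝ) with he
  have he0 : 0 < e := by
    obtain ⟨g, hg, _⟩ := exists_sorted hn
    have : 0 < (LE Q).card := Finset.card_pos.2 ⟨g, hg⟩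
    rw [he]
    exact_mod_cast this
  set G : ℝ → ℝ := fun θ => (Wc Q lab (Complex.exp (θ * Complex.I)) *
    Complex.exp (-(k * θ * Complex.I))).re * (2 - 2 * Real.cos θ) with hG
  have hGc : Continuous G := by
    rw [hG]
    unfold Wc
    fun_prop
  have hδ400 : 25000 / s ≤ 1 / (400 * h) := by
    rw [div_le_div_iff₀ hspos (by positivity)]
    linarith
  have hnear : ∀ θ : ℝ, |θ| ≤ 25000 / s → 9 / 10 * (e * sg θ ^ (N + 2)) ≤
      (Wc Q lab (Complex.exp (θ * Complex.I)) * Complex.exp (-(k * θ * Complex.I))).re := by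
    intro θ hθ
    refine near_mid hh hκ hn (hθ.trans hδ400) ?_
    rw [abs_mul]
    have h1 : |(k : ℝ) - N / 2| = |2 * (k : ℝ) - N| / 2 := by
      have : (k : ℝ) - N / 2 = (2 * (k : ℝ) - N) / 2 := by ring
      rw [this, abs_div, abs_two]
    rw [h1]
    have h2 : |2 * (k : ℝ) - N| ≤ s / 10 ^ 7 := by
      rw [le_div_iff₀ (by norm_num)]
      linarith
    calc |2 * (k : ℝ) - N| / 2 * |θ| ≤ s / 10 ^ 7 / 2 * (25000 / s) :=
          mul_le_mul (by linarith) hθ (abs_nonneg _) (by positivity)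
      _ = 25000 / (2 * 10 ^ 7) := by
          field_simp
      _ ≤ 1 / 200 := by norm_num
  have hx0 : ∀ θ : ℝ, 0 ≤ 2 - 2 * Real.cos θ := fun θ => by linarith [Real.cos_le_one θ]
  have hsmall : (25000 / s : ℝ) ≤ 1 := by
    rw [div_le_one hspos]
    linarith
  have hpi := Real.pi_gt_three
  have hpos : 0 < ∫ θ in (-Real.pi)..Real.pi, G θ := by
    refine asm hGc he0 hspos (δ := 25000 / s) (A := 6 * (80 / p) ^ 3) (B := 8 * (96 * h / p) ^ 3)
      ?_ (by linarith) (by positivity) (by positivity) ?_ ?_ ?_ ?_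
    · exact div_le_div_of_nonneg_right (by norm_num) hspos.le
    · intro θ hθ
      have h1 : |θ| ≤ 25000 / s :=
        hθ.trans (div_le_div_of_nonneg_right (by norm_num) hspos.le)
      have h2 := hnear θ h1
      have hθ2 : (N + 2) * θ ^ 2 ≤ 1 := by
        rw [← hs2, ← sq_abs θ, ← mul_pow]
        refine pow_le_one₀ (by positivity) ?_
        rw [le_div_iff₀ hspos] at hθ
        linarith
      have h3 : θ ^ 2 ≤ 1 := by
        have : (0 : ℝ) ≤ (N + 1) * θ ^ 2 := by positivity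
        linarith
      have h4 : 7 / 8 ≤ sg θ ^ (N + 2) := by
        have h5 : (1 - θ ^ 2 / 8) ^ (N + 2) ≤ sg θ ^ (N + 2) :=
          pow_le_pow_left₀ (by linarith) sg_ge _
        have h6 := one_add_mul_le_pow (a := -(θ ^ 2 / 8)) (by linarith) (N + 2)
        push_cast at h6
        have h7 : (1 + -(θ ^ 2 / 8)) ^ (N + 2) = (1 - θ ^ 2 / 8) ^ (N + 2) := by
          congr 1
        rw [h7] at h6
        linarith
      have h5 : 63 / 80 * e ≤ (Wc Q lab (Complex.exp (θ * Complex.I)) *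
          Complex.exp (-(k * θ * Complex.I))).re := by
        have h6 : e * (7 / 8) ≤ e * sg θ ^ (N + 2) := mul_le_mul_of_nonneg_left h4 he0.le
        linarith
      have h6 := two_sub_cos_ge (θ := θ) (by linarith)
      calc 63 / 200 * e * θ ^ 2 = 63 / 80 * e * (2 / 5 * θ ^ 2) := by ring
        _ ≤ G θ := mul_le_mul h5 h6 (by positivity) (by
          have : 0 ≤ 63 / 80 * e := by positivity
          linarith)
    · intro θ hθ
      have h2 := hnear θ hθ
      have h3 : 0 ≤ sg θ := by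
        have h4 := @sg_ge θ
        have h5 : θ ^ 2 ≤ 1 := by
          rw [← sq_abs θ]
          exact pow_le_one₀ (abs_nonneg _) (hθ.trans hsmall)
        linarith
      refine mul_nonneg (le_trans ?_ h2) (hx0 θ)
      positivity
    · intro θ hθ1 hθ2
      have h0 : 0 < |θ| := lt_of_lt_of_le (by positivity) hθ1
      have h2 := far_mid hh hp1 hκ hn hp30 h0 hθ2
      have h3 := Complex.abs_re_le_norm (Wc Q lab (Complex.exp (θ * Complex.I)) *
        Complex.exp (-(k * θ * Complex.I)))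
      have h4 : ‖Complex.exp (-(k * θ * Complex.I))‖ = 1 := by
        have : -((k : ℂ) * θ * Complex.I) = ((-(k * θ) : ℝ) : ℂ) * Complex.I := by
          push_cast
          ring
        rw [this]
        exact Complex.norm_exp_ofReal_mul_I _
      rw [norm_mul, h4, mul_one] at h3
      have h5 := (abs_le.mp h3).1
      have h6 : -‖Wc Q lab (Complex.exp (θ * Complex.I))‖ * (2 - 2 * Real.cos θ) ≤ G θ :=
        mul_le_mul_of_nonneg_right h5 (hx0 θ)
      linarith
    · exact numbers hspos (by linarith) hhs hp31'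
  have h1 := second_diff (Wp Q lab) 1 k hk1
  have h2 : (∫ θ in (-Real.pi)..Real.pi, (aeval (((1 : ℝ) : ℂ) * Complex.exp (θ * Complex.I))
      (Wp Q lab) * Complex.exp (-(k * θ * Complex.I))).re * (2 - 2 * Real.cos θ)) =
      ∫ θ in (-Real.pi)..Real.pi, G θ := by
    refine intervalIntegral.integral_congr fun θ _ => ?_
    have h3 : aeval (((1 : ℝ) : ℂ) * Complex.exp (θ * Complex.I)) (Wp Q lab) =
        Wc Q lab (Complex.exp (θ * Complex.I)) := by
      rw [Complex.ofReal_one, one_mul]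
      unfold Wc Wp
      rw [map_sum]
      exact Finset.sum_congr rfl fun g _ => by rw [map_pow, aeval_X]
    change (aeval (((1 : ℝ) : ℂ) * Complex.exp (θ * Complex.I)) (Wp Q lab) *
      Complex.exp (-(k * θ * Complex.I))).re * (2 - 2 * Real.cos θ) = _
    rw [h3]
  rw [h2] at h1
  rw [← h1] at hpos
  have h4 : 0 < 2 * Real.pi := by positivity
  have h5 := (mul_pos_iff_of_pos_right h4).mp hpos
  simp only [one_pow, mul_one] at h5
  linarith

end Pool.HM63
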