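import Pool.Agent.HM63.MidC
import Pool.Agent.HB45.Uni

set_option autoImplicit false

/-!
# HM63/Pos: the theorems for posets
-/

namespace Pool.HM63

open Pool.HB45

/-- strict concavity in the middle. PROOF. `exists_lev`, `nat_rel`, `mid_concave` with `N = n - 1`
(`10^14 h² ≤ n - 1`; `|2 k - (n - 1)| ≤ |2 k - n| + 1`, so `10^14 (2k - (n-1))² ≤ n - 1`), `coeff_Wp` and the
translation of `dn` in `Uni`. `h ≥ 1` since `n ≥ 1`. -/
theorem mid_poset {α : Type} [Fintype α] [PartialOrder α] (n h : ℕ) (hn : Fintype.card α = n)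
    (h1 : 1 ≤ n) (f : α ≃ Fin n) (hf : ∀ x y : α, x < y → f x < f y)
    (hc : ∀ s : Finset α, IsChain (· ≤ ·) (s : Set α) → s.card ≤ h) (hC : 10 ^ 15 * h ^ 2 ≤ n)
    (k : ℕ) (hk1 : 1 ≤ k) (hk : 10 ^ 15 * (2 * (k : ℤ) - n) ^ 2 ≤ n) :
    dn f (k - 1) + dn f (k + 1) < 2 * dn f k := by
  clear hn
  obtain ⟨N, rfl⟩ : ∃ N, n = N + 1 := ⟨n - 1, by omega⟩
  have hh : 1 ≤ h := by
    have h2 := hc {f.symm 0} (by simp)
    rwa [Finset.card_singleton] at h2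
  obtain ⟨κ, hκ⟩ := exists_lev f hc
  have hbig : 10 ^ 15 ≤ N + 1 := by nlinarith
  have hN : 10 ^ 14 * h ^ 2 ≤ N := by omega
  have hk' : 10 ^ 14 * (2 * (k : ℤ) - N) ^ 2 ≤ N := by
    push_cast at hk
    have h3 : (2 * (k : ℤ) - N) ^ 2 ≤ 2 * (2 * (k : ℤ) - (N + 1)) ^ 2 + 2 := by
      nlinarith [sq_nonneg (2 * (k : ℤ) - (N + 1) - 1)]
    have h4 : (10 : ℤ) ^ 15 ≤ N + 1 := by exact_mod_cast hbig
    generalize (2 * (k : ℤ) - (N + 1)) ^ 2 = u at *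
    generalize (2 * (k : ℤ) - N) ^ 2 = v at *
    omega
  have h5 := mid_concave hh hN hκ (nat_rel f hf) hk1 hk'
  rw [coeff_Wp, coeff_Wp, coeff_Wp, ← dn_eq, ← dn_eq, ← dn_eq] at h5
  exact_mod_cast h5

/-- If moreover `w` increases up to `(n - h) / 2` then `w` is unimodal. PROOF. `upper` for `n ≤ 2 k + 1`;
between `(n - h)/2` and `(n - 1)/2` strict concavity (`|2 k - n| ≤ h + 3`, `10^15 (h+3)² ≤ 16 * 10^15 h²`), so
the hypothesis on `n` is `10^17 h² ≤ n`; `combine`. -/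
theorem uni_mid {α : Type} [Fintype α] [PartialOrder α] (n h : ℕ) (hn : Fintype.card α = n)
    (h1 : 1 ≤ n) (f : α ≃ Fin n) (hf : ∀ x y : α, x < y → f x < f y)
    (hc : ∀ s : Finset α, IsChain (· ≤ ·) (s : Set α) → s.card ≤ h) (hC : 10 ^ 17 * h ^ 2 ≤ n)
    (hinc : ∀ k : ℕ, 2 * (k + 1) + h ≤ n → dn f k ≤ dn f (k + 1)) :
    ∃ m : ℕ, ∀ k : ℕ, (k < m → dn f k ≤ dn f (k + 1)) ∧ (m ≤ k → dn f (k + 1) ≤ dn f k) := by
  have hne : Nonempty α := ⟨f.symm ⟨0, h1⟩⟩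
  have hh : 1 ≤ h := by
    have h2 := hc {f.symm ⟨0, h1⟩} (by simp)
    rwa [Finset.card_singleton] at h2
  have hq : h ≤ h ^ 2 := by nlinarith
  refine combine (dn f) (fun k => 2 * (k + 1) + h ≤ n) (fun k => n ≤ 2 * k + 1) hinc ?_ ?_ ?_ ?_ ?_
  · intro j hj hj'
    have hj1 : 1 ≤ j := by omega
    have h4 : (2 * (j : ℤ) - n) ^ 2 ≤ 9 * h ^ 2 := by
      have h5 : (n : ℤ) < 2 * (j + 1) + h := by exact_mod_cast (not_le.1 hj)
      have h6 : 2 * (j : ℤ) + 1 < n := by exact_mod_cast (not_le.1 hj')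
      have h7 : (1 : ℤ) ≤ h := by exact_mod_cast hh
      have h8 : (2 * (j : ℤ) - n) ^ 2 ≤ (3 * h) ^ 2 := by
        apply sq_le_sq'
        · linarith
        · linarith
      linarith
    have h9 : (10 : ℤ) ^ 17 * h ^ 2 ≤ n := by exact_mod_cast hC
    have h10 := mid_poset n h hn h1 f hf hc (by omega) j hj1 (by
      have : (0 : ℤ) ≤ (h : ℤ) ^ 2 := sq_nonneg _
      generalize (2 * (j : ℤ) - n) ^ 2 = u at *
      generalize (h : ℤ) ^ 2 = v at *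
      omega)
    refine ⟨by omega, ?_⟩
    generalize dn f (j - 1) = a at *
    generalize dn f (j + 1) = b at *
    generalize dn f j = c at *
    have h11 : 4 * (a * b) ≤ (a + b) ^ 2 := by
      have : (4 * ((a : ℤ) * b)) ≤ ((a : ℤ) + b) ^ 2 := by nlinarith [sq_nonneg ((a : ℤ) - b)]
      exact_mod_cast this
    have h12 : (a + b) ^ 2 ≤ (2 * c) ^ 2 := Nat.pow_le_pow_left h10.le 2
    nlinarith
  · intro j hj
    omega
  · intro j hj
    omega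
  · intro j hj
    exact upper n hn f hf j hj
  · exact ⟨n, by omega⟩

end Pool.HM63
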