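import Pool.Agent.HB45.Near

set_option autoImplicit false

/-!
# HM63/Sg: `S (-iθ)` is real; the lower bound near `θ = 0`
-/

open Complex

namespace Pool.HM63

open Pool.HB45

/-- `∫ cos (θ x)` over `[-1/2, 1/2]` -/
noncomputable def sg (θ : ℝ) : ℝ := ∫ x in (-(1/2) : ℝ)..(1/2), Real.cos (θ * x)

theorem integral_sin_zero (θ : ℝ) : ∫ x in (-(1/2) : ℝ)..(1/2), Real.sin (θ * x) = 0 := by
  have h1 := intervalIntegral.integral_comp_neg (a := (-(1/2) : ℝ)) (b := 1/2)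
    (fun x => Real.sin (θ * x))
  rw [neg_neg] at h1
  have h2 : (∫ x in (-(1/2) : ℝ)..(1/2), Real.sin (θ * -x)) =
      -∫ x in (-(1/2) : ℝ)..(1/2), Real.sin (θ * x) := by
    rw [← intervalIntegral.integral_neg]
    refine intervalIntegral.integral_congr fun x _ => ?_
    change Real.sin (θ * -x) = -Real.sin (θ * x)
    rw [mul_neg, Real.sin_neg]
  rw [h2] at h1
  linarith

theorem S_neg_I (θ : ℝ) : S (-(θ * I)) = (sg θ : ℂ) := by
  have h1 : ∀ x : ℝ, Complex.exp (-(θ * I) * x) =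
      ((Real.cos (θ * x) : ℝ) : ℂ) - ((Real.sin (θ * x) : ℝ) : ℂ) * I := by
    intro x
    have e : -(θ * I) * x = ((-(θ * x) : ℝ) : ℂ) * I := by push_cast; ring
    rw [e, Complex.exp_mul_I, ← Complex.ofReal_cos, ← Complex.ofReal_sin, Real.cos_neg, Real.sin_neg]
    push_cast
    ring
  unfold S sg
  simp_rw [h1]
  rw [intervalIntegral.integral_sub, intervalIntegral.integral_mul_const,
    intervalIntegral.integral_ofReal, intervalIntegral.integral_ofReal, integral_sin_zero]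
  · simp
  · apply Continuous.intervalIntegrable
    fun_prop
  · apply Continuous.intervalIntegrable
    fun_prop

theorem sg_ge {θ : ℝ} : 1 - θ ^ 2 / 8 ≤ sg θ := by
  have h1 : ∫ _x in (-(1/2) : ℝ)..(1/2), (1 - θ ^ 2 / 8) = 1 - θ ^ 2 / 8 := by
    rw [intervalIntegral.integral_const]
    norm_num
  rw [← h1]
  unfold sg
  refine intervalIntegral.integral_mono_on (by norm_num) (by simp) ?_ ?_
  · apply Continuous.intervalIntegrable
    fun_prop
  · intro x hx
    have h2 := Real.one_sub_sq_div_two_le_cos (x := θ * x)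
    have h3 : x ^ 2 ≤ 1 / 4 := by
      have := hx.1
      have := hx.2
      nlinarith
    have h4 : θ ^ 2 * x ^ 2 ≤ θ ^ 2 * (1 / 4) := mul_le_mul_of_nonneg_left h3 (sq_nonneg θ)
    rw [mul_pow] at h2
    linarith

/-- POINTWISE, near `0` -/
theorem near_mid {N h : ℕ} (hh : 1 ≤ h) {Q : Rel (N + 1)} {κ lab : Fin (N + 1) → ℕ} (hκ : Lev h Q κ)
    (hn : Nat' Q lab) {θ : ℝ} (hθ : |θ| ≤ 1 / (400 * h)) {k : ℕ} (hk : |((k : ℝ) - N / 2) * θ| ≤ 1 / 200) :
    9 / 10 * ((LE Q).card * sg θ ^ (N + 2)) ≤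
      (Wc Q lab (Complex.exp (θ * I)) * Complex.exp (-(k * θ * I))).re := by
  have hh1 : (1 : ℝ) ≤ h := by exact_mod_cast hh
  have hh0 : (0 : ℝ) < h := by linarith
  have hθ1 : |θ| ≤ 1 / 400 := by
    refine hθ.trans ?_
    rw [div_le_div_iff₀ (by positivity) (by norm_num)]
    linarith
  have hsg : 0 ≤ sg θ := by
    have h1 := @sg_ge θ
    have h2 : θ ^ 2 ≤ (1 / 400) ^ 2 := by
      rw [← sq_abs θ]
      exact pow_le_pow_left₀ (abs_nonneg _) hθ1 2
    norm_num at h2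
    linarith
  have hs : ‖(-(θ * I) : ℂ)‖ ≤ 1 / (400 * h) := by
    rw [norm_neg, norm_mul, Complex.norm_I, mul_one, Complex.norm_real]
    exact hθ
  have h1 := near_one hh hκ hn (-(θ * I)) hs
  rw [S_neg_I, neg_neg, Complex.norm_real, Real.norm_of_nonneg hsg] at h1
  set M := sg θ ^ (N + 2) with hM
  have hM0 : 0 ≤ M := pow_nonneg hsg _
  set e : ℝ := ((LE Q).card : ℝ) with he
  have he0 : 0 ≤ e := Nat.cast_nonneg _
  set A : ℂ := Wc Q lab (Complex.exp (θ * I)) * Complex.exp (-(θ * I) * N / 2) with hA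
  set φ : ℝ := ((k : ℝ) - N / 2) * θ with hφ
  have h2 : Wc Q lab (Complex.exp (θ * I)) * Complex.exp (-(k * θ * I)) =
      A * Complex.exp (((-φ : ℝ) : ℂ) * I) := by
    have e1 : Complex.exp (-(k * θ * I)) =
        Complex.exp (-(θ * I) * N / 2) * Complex.exp (((-φ : ℝ) : ℂ) * I) := by
      rw [← Complex.exp_add]
      congr 1
      rw [hφ]
      push_cast
      ring
    rw [hA, e1]
    ring
  have h3 : A = ((e * M : ℝ) : ℂ) + (A - ((e * M : ℝ) : ℂ)) := by ring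
  have h4 : ‖A - ((e * M : ℝ) : ℂ)‖ ≤ 1 / 16 * (e * M) := by
    have : ((e * M : ℝ) : ℂ) = ((LE Q).card : ℂ) * (sg θ : ℂ) ^ (N + 2) := by
      rw [he, hM]
      push_cast
      ring
    rw [this]
    exact h1
  have hφ1 : |φ| ≤ 1 / 200 := hk
  have hcos : 99 / 100 ≤ Real.cos (-φ) := by
    rw [Real.cos_neg]
    have h5 := Real.one_sub_sq_div_two_le_cos (x := φ)
    have h6 : φ ^ 2 ≤ (1 / 200) ^ 2 := by
      rw [← sq_abs φ]
      exact pow_le_pow_left₀ (abs_nonneg _) hφ1 2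
    norm_num at h6
    linarith
  rw [h2, h3, add_mul, Complex.add_re]
  have h7 : (((e * M : ℝ) : ℂ) * Complex.exp (((-φ : ℝ) : ℂ) * I)).re = e * M * Real.cos (-φ) := by
    rw [Complex.re_ofReal_mul, Complex.exp_ofReal_mul_I_re]
  have h8 : -(1 / 16 * (e * M)) ≤
      ((A - ((e * M : ℝ) : ℂ)) * Complex.exp (((-φ : ℝ) : ℂ) * I)).re := by
    have h9 := Complex.abs_re_le_norm ((A - ((e * M : ℝ) : ℂ)) * Complex.exp (((-φ : ℝ) : ℂ) * I))
    rw [norm_mul, Complex.norm_exp_ofReal_mul_I, mul_one] at h9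
    have := (abs_le.mp (h9.trans h4)).1
    exact this
  rw [h7]
  have h10 : 0 ≤ e * M := mul_nonneg he0 hM0
  have h11 : e * M * (99 / 100) ≤ e * M * Real.cos (-φ) := mul_le_mul_of_nonneg_left hcos h10
  linarith

end Pool.HM63
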